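import Mathlib
import Pool.Agent.H.MP_6fff33_lc.M

set_option autoImplicit false

namespace Pool.Agent.Results.MP_6fff33_lc.Undec

open Set Filter Topology Pool.Agent.H.MP_c22137_lc Pool.Agent.H.MP_6fff33_lc

/-- An input: a list of terms (component index, exponent vector, rational coefficient). -/
abbrev Code := List (ℕ × List ℕ × ℚ)

/-- The polynomial vector field on ℝ^n given by the list of terms. -/
noncomputable def field (n : ℕ) (L : Code) (x : Fin n → ℝ) (i : Fin n) : ℝ :=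
  (L.map fun p : ℕ × List ℕ × ℚ => if p.1 = i.val then (p.2.2 : ℝ) * ∏ j : Fin n, x j ^ p.2.1.getD j 0 else 0).sum

/-- Well-formed input: every term is a monomial in n variables of total degree between 1 and d. -/
def WF (d n : ℕ) (L : Code) : Prop := ∀ p ∈ L, p.1 < n ∧ p.2.1.length = n ∧ 1 ≤ p.2.1.sum ∧ p.2.1.sum ≤ d

/-- Euclidean length. -/
noncomputable def len {n : ℕ} (x : Fin n → ℝ) : ℝ := √(∑ i, x i ^ 2)

/-- `φ` solves the differential equation on all of the nonnegative half-line with initial value `x`. -/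
def IsSol {n : ℕ} (f : (Fin n → ℝ) → Fin n → ℝ) (x : Fin n → ℝ) (φ : ℝ → Fin n → ℝ) : Prop :=
  φ 0 = x ∧ ∀ t, 0 ≤ t → HasDerivWithinAt φ (f (φ t)) (Ici 0) t

/-- Lyapunov stability of the origin. -/
def Stable {n : ℕ} (f : (Fin n → ℝ) → Fin n → ℝ) : Prop :=
  ∀ ε, 0 < ε → ∃ δ, 0 < δ ∧ ∀ x, len x < δ → (∃ φ, IsSol f x φ) ∧ ∀ φ, IsSol f x φ → ∀ t, 0 ≤ t → len (φ t) < ε

/-- The solution from `x` exists for all positive time and tends to the origin. -/
def Attracted {n : ℕ} (f : (Fin n → ℝ) → Fin n → ℝ) (x : Fin n → ℝ) : Prop :=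
  (∃ φ, IsSol f x φ) ∧ ∀ φ, IsSol f x φ → Tendsto φ atTop (𝓝 0)

/-- Local asymptotic stability. -/
def LAS {n : ℕ} (f : (Fin n → ℝ) → Fin n → ℝ) : Prop := Stable f ∧ ∃ δ, 0 < δ ∧ ∀ x, len x < δ → Attracted f x

/-- Global asymptotic stability. -/
def GAS {n : ℕ} (f : (Fin n → ℝ) → Fin n → ℝ) : Prop := Stable f ∧ ∀ x, Attracted f x

/-- Some algorithm decides the property `P` of the field on all well-formed inputs of dimension n and degree at most d. -/
def Dec (d n : ℕ) (P : ((Fin n → ℝ) → Fin n → ℝ) → Prop) : Prop :=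
  ∃ A : ℕ × Code → Bool, Computable A ∧ ∀ L, WF d n L → (A (n, L) = true ↔ P (field n L))

theorem norm_le_len {n : ℕ} (x : Fin n → ℝ) : ‖x‖ ≤ len x :=
  (pi_norm_le_iff_of_nonneg (Real.sqrt_nonneg _)).2 fun i => Real.abs_le_sqrt
    (Finset.single_le_sum (f := fun i => x i ^ 2) (fun _ _ => sq_nonneg _) (Finset.mem_univ i))

theorem len_le {n : ℕ} (x : Fin n → ℝ) : len x ≤ (n + 1) * ‖x‖ := by
  refine Real.sqrt_le_iff.2 ⟨by positivity, ?_⟩
  have : ∑ i, x i ^ 2 ≤ n * ‖x‖ ^ 2 := by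
    simpa using Finset.sum_le_card_nsmul Finset.univ (fun i => x i ^ 2) (‖x‖ ^ 2) fun i _ =>
      sq_le_sq.2 ((norm_le_pi_norm x i).trans (le_abs_self _))
  have h : (0 : ℝ) ≤ n := by positivity
  nlinarith [sq_nonneg ‖x‖, mul_nonneg (mul_nonneg h h) (sq_nonneg ‖x‖), mul_nonneg h (sq_nonneg ‖x‖)]

theorem IsSol.D {n : ℕ} {f : (Fin n → ℝ) → Fin n → ℝ} {x : Fin n → ℝ} {φ : ℝ → Fin n → ℝ} (h : IsSol f x φ) (T : ℝ) :
    D T φ fun t => f (φ t) := fun t ht => (h.2 t ht.1).mono Icc_subset_Ici_self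

theorem red {d e n : ℕ} (hd : e ≤ d) {P : ((Fin n → ℝ) → Fin n → ℝ) → Prop} {L0 L1 L2 : List (Fin n × (Fin n → ℕ) × ℤ)} {S : ℕ → Prop}
    (h : ∀ p, p ∈ L0 ∨ p ∈ L1 ∨ p ∈ L2 → 1 ≤ ∑ j, p.2.1 j ∧ ∑ j, p.2.1 j ≤ e) (hS : ¬ ComputablePred S)
    (H : ∀ m : ℕ, ¬ S m ↔ P fun x i => ev L0 x i + m * ev L1 x i + (m * m : ℕ) * ev L2 x i) : ¬ Dec d n P := by
  rintro ⟨A, hA, k⟩
  let tr : Fin n × (Fin n → ℕ) × ℤ → ℕ × List ℕ × ℚ := fun p => (p.1, List.ofFn p.2.1, p.2.2)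
  let L : ℕ → Code := fun m => L0.map tr ++ (rep (L1.map tr) m ++ rep (L2.map tr) (m * m))
  have hL : Primrec L := Primrec.list_append.comp (Primrec.const _) (Primrec.list_append.comp (rep_prim _)
    ((rep_prim _).comp (Primrec.nat_mul.comp Primrec.id Primrec.id)))
  have k1 : ∀ (M : List (Fin n × (Fin n → ℕ) × ℤ)) (x : Fin n → ℝ) (i : Fin n), ((M.map tr).map fun p : ℕ × List ℕ × ℚ =>
      if p.1 = i.val then (p.2.2 : ℝ) * ∏ j : Fin n, x j ^ p.2.1.getD j 0 else 0).sum = ev M x i := fun M x i => by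
    rw [List.map_map]
    refine congrArg List.sum (List.map_congr_left fun p _ => ?_)
    simp [tr, Fin.ext_iff]
  have k2 : ∀ m, field n (L m) = fun x i => ev L0 x i + m * ev L1 x i + (m * m : ℕ) * ev L2 x i := fun m => by
    ext x i
    simp only [field, L, List.map_append, List.sum_append, rep_sum, k1, add_assoc]
  have k3 : ∀ m, WF d n (L m) := fun m p hp => by
    obtain ⟨q, hq, rfl⟩ : ∃ q, (q ∈ L0 ∨ q ∈ L1 ∨ q ∈ L2) ∧ tr q = p := by
      rcases List.mem_append.1 hp with hp | hp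
      · obtain ⟨q, a, b⟩ := List.mem_map.1 hp
        exact ⟨q, .inl a, b⟩
      rcases List.mem_append.1 hp with hp | hp <;> obtain ⟨q, a, b⟩ := List.mem_map.1 (mem_rep hp)
      exacts [⟨q, .inr (.inl a), b⟩, ⟨q, .inr (.inr a), b⟩]
    have := h q hq
    simp only [tr, List.length_ofFn, List.sum_ofFn]
    exact ⟨q.1.2, trivial, this.1, this.2.trans hd⟩
  refine hS (ComputablePred.computable_iff.2 ⟨fun m => !A (n, L m),
    Primrec.not.to_comp.comp (hA.comp ((Computable.const n).pair hL.to_comp)), funext fun m => propext ?_⟩)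
  have : A (n, L m) = true ↔ ¬ S m := by rw [k _ (k3 m), k2, H]
  rw [Bool.not_eq_true', ← Bool.not_eq_true, this, not_not]

theorem gas {n : ℕ} {f : (Fin n → ℝ) → Fin n → ℝ} (h : St' f) : GAS f := by
  obtain ⟨C, C0, h⟩ := h
  have ex : ∀ x, ∃ φ, IsSol f x φ := fun x => by
    obtain ⟨γ, a, b⟩ := (h x).1
    exact ⟨γ, a, fun t ht => (b t ht).hasDerivWithinAt⟩
  refine ⟨fun ε e0 => ⟨ε / ((n + 1) * C), by positivity, fun x hx => ⟨ex x, fun φ hφ t ht => ?_⟩⟩, fun x => ⟨ex x, fun φ hφ => ?_⟩⟩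
  · obtain ⟨K, hK⟩ := (h x).2
    have := (hK t φ hφ.1 (hφ.D t) t ⟨ht, le_rfl⟩).1
    rw [lt_div_iff₀ (by positivity)] at hx
    calc _ ≤ (n + 1) * (C * len x) := (len_le _).trans (by gcongr; exact this.trans (by gcongr; exact norm_le_len x))
      _ < ε := by linarith
  · obtain ⟨K, hK⟩ := (h x).2
    have h1 : Tendsto (fun t => ‖φ t‖ ^ 10) atTop (𝓝 0) := by
      refine squeeze_zero' (Eventually.of_forall fun t => by positivity) ?_ (tendsto_const_nhds (x := K).div_atTop tendsto_id)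
      filter_upwards [eventually_gt_atTop 0] with t ht
      exact (le_div_iff₀' ht).2 (hK t φ hφ.1 (hφ.D t) t ⟨ht.le, le_rfl⟩).2
    refine Metric.tendsto_nhds.2 fun ε e0 => ?_
    filter_upwards [h1.eventually (gt_mem_nhds (pow_pos e0 10))] with t ht
    rw [dist_zero_right]
    exact lt_of_pow_lt_pow_left₀ 10 e0.le ht

theorem unstable {n : ℕ} {f : (Fin n → ℝ) → Fin n → ℝ} (h : Un' f) : ¬ Stable f := fun k => by
  obtain ⟨ε, e0, h⟩ := h
  obtain ⟨δ, d0, k⟩ := k ε e0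
  obtain ⟨x, hx, T, T0, h⟩ := h (δ / (n + 1)) (by positivity)
  rw [lt_div_iff₀' (by positivity)] at hx
  obtain ⟨⟨φ, hφ⟩, k⟩ := k x ((len_le x).trans_lt hx)
  obtain ⟨t, ht, h⟩ := h φ hφ.1 (hφ.D T)
  exact (h.trans (norm_le_len _)).not_gt (k φ hφ t ht.1)

/-- All three notions of stability are undecidable for every degree bound at least 11, already in one fixed dimension;
Lyapunov stability is undecidable for every degree bound at least 5. -/
theorem result : (∃ n, 0 < n ∧ ∀ d, 11 ≤ d → ¬ Dec d n Stable ∧ ¬ Dec d n LAS ∧ ¬ Dec d n GAS) ∧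
    ∃ n, 0 < n ∧ ∀ d, 5 ≤ d → ¬ Dec d n Stable := by
  constructor
  · obtain ⟨n, L0, L1, L2, S, n0, hd, hS, H⟩ := main'
    refine ⟨n, n0, fun d h => ⟨red h hd hS fun m => ⟨fun k => (gas ((H m).1 k)).1, fun k c => unstable ((H m).2 c) k⟩,
      red h hd hS fun m => ⟨fun k => ⟨(gas ((H m).1 k)).1, 1, one_pos, fun x _ => (gas ((H m).1 k)).2 x⟩,
        fun k c => unstable ((H m).2 c) k.1⟩,
      red h hd hS fun m => ⟨fun k => gas ((H m).1 k), fun k c => unstable ((H m).2 c) k.1⟩⟩⟩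
  · obtain ⟨n, L0, L1, L2, S, n0, hd, hS, H⟩ := main
    refine ⟨n, n0, fun d h => red h hd hS fun m => ⟨fun k ε e0 => ?_, fun k c => unstable ⟨1, one_pos, fun δ d0 => ?_⟩ k⟩⟩
    · obtain ⟨δ, d0, a, b⟩ := (H m).1 k (ε / (n + 1)) (by positivity)
      refine ⟨δ, d0, fun x hx => ⟨?_, fun φ hφ t ht => ?_⟩⟩
      · obtain ⟨γ, a, b⟩ := a x ((norm_le_len x).trans_lt hx)
        exact ⟨γ, a, fun t _ => (b t).hasDerivWithinAt⟩
      · have := b t φ (hφ.1 ▸ (norm_le_len x).trans_lt hx) (hφ.D t) t ⟨ht, le_rfl⟩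
        rw [lt_div_iff₀' (by positivity)] at this
        exact (len_le _).trans_lt this
    · obtain ⟨x, hx, -, T, T0, b⟩ := (H m).2 c δ d0
      exact ⟨x, hx, T, T0, fun γ h0 h => ⟨T, ⟨T0, le_rfl⟩, b γ h0 h⟩⟩

end Pool.Agent.Results.MP_6fff33_lc.Undec
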